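import Mathlib
import Pool.Graph.R_seed8.Helper647.CPP.NegSide

set_option autoImplicit false
set_option linter.unusedSectionVars false

open Set Topology Filter Cardinal

namespace Pool.Agent.KS6_77.CppS

open Pool.Agent.Helper647.CPP

/-- Diamond implies the continuum hypothesis. -/
theorem ch_of_diamond (hD : Diamond) : (ℵ₁ : Cardinal.{0}) = 𝔠 := by
  obtain ⟨A, hA⟩ := hD
  have hinf : Infinite Om := by
    rw [Cardinal.infinite_iff, mk_toType, card_ord]
    exact aleph0_lt_aleph_one.le
  let e : ℕ ↪ Om := Infinite.natEmbedding Om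
  obtain ⟨a0, ha0⟩ := exists_bound e
  have hclub : IsClubSet {a : Om | a0 < a} := by
    refine ⟨fun a => ?_, fun a h1 h2 => ?_⟩
    · obtain ⟨b, hb⟩ := exists_bound (fun n => if n = 0 then a else a0)
      exact ⟨b, by simpa using hb 0, by simpa using hb 1⟩
    · obtain ⟨b, hb⟩ := h1
      obtain ⟨c, hc, hc2⟩ := h2 b hb
      exact lt_trans hc2 hc.2
  have hsurj : Function.Surjective (fun a : Om => {n : ℕ | e n ∈ A a}) := by
    intro S0
    obtain ⟨a, ha, h⟩ := hA (e '' S0) _ hclub
    refine ⟨a, ?_⟩
    ext n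
    have h1 := h (e n) (lt_trans (ha0 n) ha)
    simp only [mem_setOf_eq]
    rw [← h1]
    exact e.injective.mem_set_image
  refine le_antisymm aleph_one_le_continuum ?_
  have h2 := mk_le_of_surjective hsurj
  rw [mk_set, mk_nat, two_power_aleph0, mk_toType, card_ord] at h2
  exact h2

variable {Z : Set Cn}

theorem nhds_node (t : List Bool) : 𝓝 (Pt.node t : Pt Z) = pure (Pt.node t) := by
  refine le_antisymm ?_ (pure_le_nhds _)
  intro s hs
  exact mem_of_superset ((isClopen_node t).isOpen.mem_nhds rfl) (by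
    intro x hx
    have : x = Pt.node t := hx
    rw [this]
    exact hs)

theorem nhds_leaf (z : Z) : 𝓝 (Pt.leaf z : Pt Z) =
    pure (Pt.leaf z) ⊔ map (fun n : ℕ => (Pt.node (cut z n) : Pt Z)) atTop := by
  ext s
  constructor
  · intro hs
    obtain ⟨U, hU, hUo, hz⟩ := mem_nhds_iff.1 hs
    refine mem_sup.2 ⟨mem_pure.2 (hU hz), ?_⟩
    filter_upwards [isOpen_pt.1 hUo z hz] with n hn using hU hn
  · intro hs
    obtain ⟨h1, h2⟩ := mem_sup.1 hs
    have h1' : (Pt.leaf z : Pt Z) ∈ s := mem_pure.1 h1
    refine mem_nhds_iff.2 ⟨s ∩ lnb z, inter_subset_left, ?_, h1', Or.inl rfl⟩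
    rw [isOpen_pt]
    intro z' hz'
    have h3 : z' = z := leaf_mem_lnb hz'.2
    subst h3
    have h4 : ∀ᶠ n in atTop, (Pt.node (cut z' n) : Pt Z) ∈ s := h2
    filter_upwards [h4] with n hn
    exact ⟨hn, Or.inr ⟨n, rfl⟩⟩

theorem cg (p : Pt Z) : (𝓝 (p : OnePoint (Pt Z))).IsCountablyGenerated := by
  have h : (𝓝 p).IsCountablyGenerated := by
    cases p with
    | node t =>
      rw [nhds_node]
      infer_instance
    | leaf z =>
      rw [nhds_leaf]
      infer_instance
  rw [OnePoint.nhds_coe_eq]
  infer_instance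

/-- countably generated neighbourhoods give sequences -/
theorem seq_of_cg {X : Type} [TopologicalSpace X] {a : X} (h : (𝓝 a).IsCountablyGenerated)
    {S : Set X} (ha : a ∈ closure S) : a ∈ seqClosure S := by
  have h1 : (𝓝 a ⊓ 𝓟 S).NeBot := mem_closure_iff_clusterPt.1 ha
  obtain ⟨x, hx⟩ := exists_seq_tendsto (𝓝 a ⊓ 𝓟 S)
  have h2 : Tendsto x atTop (𝓝 a) := hx.mono_right inf_le_left
  have h3 : ∀ᶠ n in atTop, x n ∈ S := tendsto_principal.1 (hx.mono_right inf_le_right)
  obtain ⟨N, hN⟩ := eventually_atTop.1 h3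
  exact ⟨fun n => x (n + N), fun n => hN _ (Nat.le_add_left _ _),
    h2.comp (tendsto_add_atTop_nat N)⟩

/-- convergence to the point at infinity -/
theorem tendsto_inf (u : ℕ → Pt Z) (h1 : ∀ t, ∀ᶠ n in atTop, u n ≠ Pt.node t)
    (h2 : ∀ z : Z, ∀ᶠ n in atTop, u n ∉ lnb z) :
    Tendsto (fun n => (u n : OnePoint (Pt Z))) atTop (𝓝 OnePoint.infty) := by
  rw [tendsto_nhds]
  intro U hU hinf
  have hK := ((OnePoint.isOpen_iff_of_mem hinf).1 hU).2
  have h3 : ∀ᶠ n in atTop, u n ∉ ((fun p : Pt Z => (p : OnePoint (Pt Z))) ⁻¹' U)ᶜ := by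
    refine hK.induction_on (p := fun S => ∀ᶠ n in atTop, u n ∉ S) (by simp)
      (fun s t hst ht => ht.mono (fun n hn h => hn (hst h))) (fun s t hs ht => ?_) (fun x hx => ?_)
    · filter_upwards [hs, ht] with n a b
      rintro (h | h)
      exacts [a h, b h]
    · cases x with
      | node t =>
        exact ⟨{Pt.node t}, mem_nhdsWithin_of_mem_nhds ((isClopen_node t).isOpen.mem_nhds rfl),
          h1 t⟩
      | leaf z =>
        exact ⟨lnb z, mem_nhdsWithin_of_mem_nhds ((isClopen_lnb z).isOpen.mem_nhds (Or.inl rfl)),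
          h2 z⟩
  filter_upwards [h3] with n hn
  by_contra h
  exact hn h

theorem cut_prefix {y z : Cn} {n m : ℕ} (h : cut y n <+: cut z m) {i : ℕ} (hi : i < n) :
    y i = z i := by
  have h1 := h.getElem (i := i) (by rw [cut_length]; exact hi)
  simpa [cut] using h1

theorem cut_succ' (y : Cn) (n : ℕ) : cut y (n + 1) = cut y n ++ [y n] := by
  unfold cut
  rw [List.ofFn_succ']
  simp [List.concat_eq_append]

theorem frechet (Z : Set Cn) : FrechetUrysohnSpace (XZ Z) := by
  classical
  refine ⟨fun S a ha => ?_⟩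
  by_cases haS : a ∈ S
  · exact subset_seqClosure haS
  induction a using OnePoint.rec with
  | coe p => exact seq_of_cg (cg p) ha
  | infty =>
    by_cases hinf : {z : Z | (lf z : XZ Z) ∈ S}.Infinite
    · let f := hinf.natEmbedding
      refine ⟨fun n => lf (f n).1, fun n => (f n).2, ?_⟩
      refine tendsto_inf (fun n => Pt.leaf (f n).1) (fun t => ?_) (fun z => ?_)
      · exact Eventually.of_forall fun n h => by cases h
      · by_cases hz : ∃ n, (f n).1 = z
        · obtain ⟨n0, hn0⟩ := hz
          filter_upwards [eventually_gt_atTop n0] with n hn h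
          have h1 := leaf_mem_lnb h
          have h2 : f n = f n0 := Subtype.ext (h1.trans hn0.symm)
          exact absurd (f.injective h2) (by omega)
        · refine Eventually.of_forall fun n h => hz ⟨n, leaf_mem_lnb h⟩
    · have hfin : {z : Z | (lf z : XZ Z) ∈ S}.Finite := not_infinite.1 hinf
      let R : List Bool → Set Z → Set (List Bool) := fun s F =>
        {t | (nd t : XZ Z) ∈ S ∧ s <+: t ∧ ∀ z ∈ F, ∀ n, t ≠ cut z n}
      let big : List Bool → Prop := fun s => ∀ F : Set Z, F.Finite → (R s F).Infinite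
      have hbig0 : big [] := by
        intro F hF hR
        have hR' : (R [] F).Finite := hR
        let K' : Set (Pt Z) := (⋃ z ∈ F ∪ {z : Z | (lf z : XZ Z) ∈ S}, lnb z) ∪
          (fun t => (Pt.node t : Pt Z)) '' R [] F
        have hK' : IsCompact K' := by
          refine IsCompact.union ?_ (hR'.image _).isCompact
          exact (hF.union hfin).isCompact_biUnion fun z _ => isCompact_lnb z
        have hKc : IsClosed ((fun p : Pt Z => (p : OnePoint (Pt Z))) '' K') :=
          (hK'.image OnePoint.continuous_coe).isClosed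
        have hsub : S ⊆ (fun p : Pt Z => (p : OnePoint (Pt Z))) '' K' := by
          intro x hx
          induction x using OnePoint.rec with
          | infty => exact absurd hx haS
          | coe p =>
            refine ⟨p, ?_, rfl⟩
            cases p with
            | leaf z =>
              exact Or.inl (mem_biUnion (x := z) (Or.inr hx) (Or.inl rfl))
            | node t =>
              by_cases ht : ∃ z ∈ F, ∃ n, t = cut z n
              · obtain ⟨z, hz, n, hn⟩ := ht
                refine Or.inl (mem_biUnion (x := z) (Or.inl hz) (Or.inr ⟨n, ?_⟩))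
                show (Pt.node (cut z n) : Pt Z) = Pt.node t
                rw [hn]
              · push Not at ht
                exact Or.inr ⟨t, ⟨hx, List.nil_prefix, ht⟩, rfl⟩
        obtain ⟨p, _, hp⟩ := closure_minimal hsub hKc ha
        exact OnePoint.coe_ne_infty p hp
      have hstep : ∀ s, big s → ¬ big (s ++ [true]) → big (s ++ [false]) := by
        intro s hs h1 F2 hF2 hR2
        have h1' : ∃ F : Set Z, F.Finite ∧ (R (s ++ [true]) F).Finite := by
          by_contra hc
          push Not at hc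
          exact h1 fun F hF => hc F hF
        obtain ⟨F1, hF1, hR1⟩ := h1'
        refine hs (F1 ∪ F2) (hF1.union hF2) ?_
        refine ((finite_singleton s).union (hR1.union (hR2 : (R (s ++ [false]) F2).Finite))).subset ?_
        rintro t ⟨ht1, ⟨r, hr⟩, ht3⟩
        rcases r with _ | ⟨b, r⟩
        · left
          rw [List.append_nil] at hr
          exact hr.symm
        · right
          cases b
          · right
            exact ⟨ht1, ⟨r, by rw [← hr]; simp⟩, fun z hz => ht3 z (Or.inr hz)⟩
          · left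
            exact ⟨ht1, ⟨r, by rw [← hr]; simp⟩, fun z hz => ht3 z (Or.inl hz)⟩
      let s : ℕ → List Bool := fun n => Nat.rec [] (fun _ l => l ++ [decide (big (l ++ [true]))]) n
      have hs1 : ∀ n, s (n + 1) = s n ++ [decide (big (s n ++ [true]))] := fun n => rfl
      let y : Cn := fun n => decide (big (s n ++ [true]))
      have hsy : ∀ n, s n = cut y n := by
        intro n
        induction n with
        | zero => simp [s, cut]
        | succ n ih =>
          rw [cut_succ', ← ih]
      have hbig : ∀ n, big (s n) := by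
        intro n
        induction n with
        | zero => exact hbig0
        | succ n ih =>
          rw [hs1]
          by_cases h : big (s n ++ [true])
          · rw [decide_eq_true h]
            exact h
          · rw [decide_eq_false h]
            exact hstep _ ih h
      have hex : ∀ n, ∃ t, t ∈ R (s n) {z : Z | z.1 = y} := by
        intro n
        refine (hbig n _ ?_).nonempty
        refine Set.Subsingleton.finite ?_
        intro z hz z' hz'
        exact Subtype.ext (hz.trans hz'.symm)
      choose t ht using hex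
      refine ⟨fun n => nd (t n), fun n => (ht n).1, ?_⟩
      refine tendsto_inf (fun n => Pt.node (t n)) (fun t' => ?_) (fun z => ?_)
      · filter_upwards [eventually_gt_atTop t'.length] with n hn h
        have h1 : t n = t' := by injection h
        have h2 := (ht n).2.1.length_le
        rw [hsy, cut_length, h1] at h2
        omega
      · by_cases hz : z.1 = y
        · refine Eventually.of_forall fun n h => ?_
          rcases h with h | ⟨m, h⟩
          · cases h
          · have h1 : cut z.1 m = t n := by injection h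
            exact (ht n).2.2 z hz m h1.symm
        · obtain ⟨i, hi⟩ := Function.ne_iff.1 hz
          filter_upwards [eventually_gt_atTop i] with n hn h
          rcases h with h | ⟨m, h⟩
          · cases h
          · have h1 : cut z.1 m = t n := by injection h
            have h2 := (ht n).2.1
            rw [hsy, ← h1] at h2
            exact hi (cut_prefix h2 hn).symm

theorem separable (Z : Set Cn) : TopologicalSpace.SeparableSpace (XZ Z) := by
  refine ⟨⟨insert OnePoint.infty (range (fun t : List Bool => (nd t : XZ Z))),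
    (countable_range _).insert _, fun x => ?_⟩⟩
  induction x using OnePoint.rec with
  | infty => exact subset_closure (Or.inl rfl)
  | coe p =>
    cases p with
    | node t => exact subset_closure (Or.inr ⟨t, rfl⟩)
    | leaf z =>
      rw [mem_closure_iff]
      intro O hO hz
      have h1 : IsOpen ((fun p : Pt Z => (p : OnePoint (Pt Z))) ⁻¹' O) :=
        hO.preimage OnePoint.continuous_coe
      obtain ⟨n, hn⟩ := (isOpen_pt.1 h1 z hz).exists
      exact ⟨nd (cut z n), hn, Or.inr ⟨_, rfl⟩⟩

theorem scattered (Z : Set Cn) (S : Set (XZ Z)) (hS : S.Nonempty) :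
    ∃ x ∈ S, ∃ U : Set (XZ Z), IsOpen U ∧ U ∩ S = {x} := by
  by_cases h1 : ∃ t : List Bool, (nd t : XZ Z) ∈ S
  · obtain ⟨t, ht⟩ := h1
    refine ⟨nd t, ht, (fun p : Pt Z => (p : OnePoint (Pt Z))) '' {Pt.node t},
      OnePoint.isOpenEmbedding_coe.isOpenMap _ (isClopen_node t).isOpen, ?_⟩
    ext x
    constructor
    · rintro ⟨⟨p, hp, rfl⟩, _⟩
      have : p = Pt.node t := hp
      rw [this]
      rfl
    · intro hx
      have hx' : x = nd t := hx
      rw [hx']
      exact ⟨⟨Pt.node t, rfl, rfl⟩, ht⟩
  push Not at h1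
  by_cases h2 : ∃ z : Z, (lf z : XZ Z) ∈ S
  · obtain ⟨z, hz⟩ := h2
    refine ⟨lf z, hz, (fun p : Pt Z => (p : OnePoint (Pt Z))) '' lnb z,
      OnePoint.isOpenEmbedding_coe.isOpenMap _ (isClopen_lnb z).isOpen, ?_⟩
    ext x
    constructor
    · rintro ⟨⟨p, hp, rfl⟩, hx⟩
      cases p with
      | node t => exact absurd hx (h1 t)
      | leaf z' =>
        rw [leaf_mem_lnb hp]
        rfl
    · intro hx
      have hx' : x = lf z := hx
      rw [hx']
      exact ⟨⟨Pt.leaf z, Or.inl rfl, rfl⟩, hz⟩
  push Not at h2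
  obtain ⟨x, hx⟩ := hS
  refine ⟨x, hx, univ, isOpen_univ, ?_⟩
  have hall : ∀ y ∈ S, y = OnePoint.infty := by
    intro y hy
    induction y using OnePoint.rec with
    | infty => rfl
    | coe p =>
      cases p with
      | node t => exact absurd hy (h1 t)
      | leaf z => exact absurd hy (h2 z)
  ext y
  constructor
  · rintro ⟨_, hy⟩
    exact (hall y hy).trans (hall x hx).symm
  · intro hy
    have hy' : y = x := hy
    rw [hy']
    exact ⟨trivial, hx⟩

theorem card_XZ {h : Om → ℕ → Cn} (hinj : ∀ ξ ξ' n n', h ξ n = h ξ' n' → ξ = ξ' ∧ n = n') :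
    #(XZ (Zall h)) = ℵ₁ := by
  have hOm : #Om = ℵ₁ := by rw [mk_toType, card_ord]
  apply le_antisymm
  · let g : Option (List Bool ⊕ (Om × ℕ)) → XZ (Zall h) := fun o =>
      match o with
      | none => OnePoint.infty
      | some (Sum.inl t) => nd t
      | some (Sum.inr q) => lf ⟨h q.1 q.2, ⟨q.1, q.2, rfl⟩⟩
    have hg : Function.Surjective g := by
      intro x
      induction x using OnePoint.rec with
      | infty => exact ⟨none, rfl⟩
      | coe p =>
        cases p with
        | node t => exact ⟨some (Sum.inl t), rfl⟩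
        | leaf z =>
          obtain ⟨z, ξ, n, rfl⟩ := z
          exact ⟨some (Sum.inr (ξ, n)), rfl⟩
    refine (mk_le_of_surjective hg).trans ?_
    have hle : (ℵ₀ : Cardinal.{0}) ≤ ℵ₁ := aleph0_lt_aleph_one.le
    rw [mk_option, mk_sum, mk_prod]
    simp only [Cardinal.lift_id, mk_nat]
    rw [hOm]
    have h1 : #(List Bool) ≤ ℵ₁ := (mk_le_aleph0 (α := List Bool)).trans hle
    have h2 : (ℵ₁ : Cardinal.{0}) * ℵ₀ ≤ ℵ₁ := by
      calc (ℵ₁ : Cardinal.{0}) * ℵ₀ ≤ ℵ₁ * ℵ₁ := by gcongr
        _ = ℵ₁ := mul_eq_self hle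
    have h3 : (1 : Cardinal.{0}) ≤ ℵ₁ := one_le_aleph0.trans hle
    calc #(List Bool) + ℵ₁ * ℵ₀ + 1 ≤ ℵ₁ + ℵ₁ + ℵ₁ := by gcongr
      _ = ℵ₁ := by rw [add_eq_self hle, add_eq_self hle]
  · rw [← hOm]
    refine mk_le_of_injective (f := fun ξ : Om => (lf ⟨h ξ 0, ⟨ξ, 0, rfl⟩⟩ : XZ (Zall h))) ?_
    intro ξ ξ' he
    have h1 := OnePoint.coe_injective he
    have h2 : (⟨h ξ 0, ⟨ξ, 0, rfl⟩⟩ : Zall h) = ⟨h ξ' 0, ⟨ξ', 0, rfl⟩⟩ := by injection h1
    exact (hinj _ _ _ _ (congrArg Subtype.val h2)).1

theorem main (hD : Diamond) :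
    ∃ (X : Type) (_ : TopologicalSpace X), CompactSpace X ∧ T2Space X ∧
      TopologicalSpace.SeparableSpace X ∧ FrechetUrysohnSpace X ∧ #X = ℵ₁ ∧
      (∀ S : Set X, S.Nonempty → ∃ x ∈ S, ∃ U : Set X, IsOpen U ∧ U ∩ S = {x}) ∧
      (∃ x₀ : X, ∀ x, x ≠ x₀ → (𝓝 x).IsCountablyGenerated) ∧
      LindelofSpace (Cp (Cp X)) ∧ ¬ LindelofSpace (Cp X) ∧ ¬ OmegaMonolithic X := by
  have hCH := ch_of_diamond hD
  obtain ⟨G, hG⟩ := diamond_seq hD
  obtain ⟨h, hh⟩ := exists_h G hCH
  have hZ : ¬ (Zall h).Countable := by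
    intro hc
    have h1 : (univ : Set Om).Countable := by
      refine Set.MapsTo.countable_of_injOn (f := fun ξ : Om => h ξ 0) (t := Zall h) ?_ ?_ hc
      · intro ξ _
        exact ⟨ξ, 0, rfl⟩
      · intro ξ _ ξ' _ he
        exact (hh.inj _ _ _ _ he).1
    obtain ⟨a, ha⟩ := exists_gt_countable h1
    exact lt_irrefl a (ha a (mem_univ a))
  refine ⟨XZ (Zall h), inferInstance, inferInstance, inferInstance, separable _, frechet _,
    card_XZ hh.inj, scattered _, ⟨OnePoint.infty, fun x hx => ?_⟩, ?_, not_lindelof hZ,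
    not_monolithic hZ⟩
  · induction x using OnePoint.rec with
    | infty => exact absurd rfl hx
    | coe p => exact cg p
  · refine lindelof_of_acc ?_ (fun F => exists_acc hD hG hh F)
    rw [hCH]
    exact card_Cp _

end Pool.Agent.KS6_77.CppS
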